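import Pool.Agent.KS6_22.TS.Final

/-!
# Tensor squares of differential modules in characteristic two

Over `R = k[x_1, ..., x_d] / (x_i ^ 2)`, `char k = 2`, the total homology of `P ⊗ P` has dimension
at least `2 ^ d β(P)` for every differential module `P` whose underlying module is finitely
generated and free; no grading of `P` is needed, and `P` need not be minimal.  If moreover `P` is
minimal and nonzero and has a flag (for example if `P` is a bounded complex), then the total homology
of `P` has dimension at least `2 ^ d`.  The same is proved for all finite dimensional algebras with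
a grading by the subsets of a finite set in which components with intersecting indices annihilate
each other, with the dimension of the algebra in place of `2 ^ d`.
-/

set_option autoImplicit false

namespace Pool.Agent.Results.MP_f8ecd9_al.DifferentialModules

open Module MvPolynomial

/-- The dimension over `K` of the homology of the free module with the differential given by the
square matrix `E` over the `K`-algebra `R` (for `E * E = 0`): the dimension of the kernel minus the
dimension of the image. -/
noncomputable def homDim (K : Type) {R ι : Type} [Field K] [CommRing R] [Algebra K R] [Fintype ι]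
    (E : Matrix ι ι R) : ℤ :=
  (finrank K (LinearMap.ker ((Matrix.mulVecLin E).restrictScalars K)) : ℤ) -
    finrank K (LinearMap.range ((Matrix.mulVecLin E).restrictScalars K))

/-- The differential `D ⊗ 1 + 1 ⊗ D` of the tensor square (there are no signs in characteristic
two). -/
def tensorSquare {R : Type} [CommRing R] {n : ℕ} (D : Matrix (Fin n) (Fin n) R) :
    Matrix (Fin n × Fin n) (Fin n × Fin n) R :=
  Matrix.kronecker D 1 + Matrix.kronecker 1 D

/-- `D` is strictly triangular for some order of the basis: the entry `D i j`, the coefficient of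
the `i`-th basis vector in the differential of the `j`-th one, vanishes unless the `i`-th basis
vector has a smaller degree than the `j`-th one.  This holds for the differentials of bounded
complexes. -/
def HasFlag {R : Type} [CommRing R] {n : ℕ} (D : Matrix (Fin n) (Fin n) R) : Prop :=
  ∃ deg : Fin n → ℕ, ∀ i j, D i j ≠ 0 → deg i < deg j

/-- A squarefree grading of an algebra: a decomposition into subspaces `A S` indexed by the subsets
`S` of a finite set, such that `A S * A T` is contained in `A (S ∪ T)` if `S` and `T` are disjoint,
and is zero otherwise. -/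
def IsSquarefreeGrading {K R : Type} [Field K] [CommRing R] [Algebra K R] {d : ℕ}
    (A : Finset (Fin d) → Submodule K R) : Prop :=
  DirectSum.IsInternal A ∧
    ∀ S T : Finset (Fin d), ∀ a ∈ A S, ∀ b ∈ A T,
      (Disjoint S T → a * b ∈ A (S ∪ T)) ∧ (¬ Disjoint S T → a * b = 0)

/-- The sum of the components with nonempty index. -/
def positivePart {K R : Type} [Field K] [CommRing R] [Algebra K R] {d : ℕ}
    (A : Finset (Fin d) → Submodule K R) : Submodule K R :=
  ⨆ S ∈ {S : Finset (Fin d) | S ≠ ∅}, A S

/-- The ideal generated by the squares of the variables. -/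
noncomputable def squares (k : Type) [Field k] (d : ℕ) : Ideal (MvPolynomial (Fin d) k) :=
  Ideal.span (Set.range (fun i : Fin d => (MvPolynomial.X i : MvPolynomial (Fin d) k) ^ 2))

/-- The matrix over `k[x_1, ..., x_d] / (x_i ^ 2)` given by a matrix of polynomials. -/
noncomputable def reduce {k : Type} [Field k] {d n : ℕ}
    (G : Matrix (Fin n) (Fin n) (MvPolynomial (Fin d) k)) :
    Matrix (Fin n) (Fin n) (MvPolynomial (Fin d) k ⧸ squares k d) :=
  G.map (Ideal.Quotient.mk (squares k d))

/-- For a differential which is congruent to the matrix `D₀` over `K` modulo the positive part, the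
homology of the tensor square is at least `dim R` times the homology of `D₀`. -/
def SquareInequality {K R : Type} [Field K] [CommRing R] [Algebra K R] {d : ℕ}
    (A : Finset (Fin d) → Submodule K R) : Prop :=
  ∀ (n : ℕ) (D : Matrix (Fin n) (Fin n) R), D * D = 0 →
    ∀ D₀ : Matrix (Fin n) (Fin n) K,
      (∀ i j, D i j - algebraMap K R (D₀ i j) ∈ positivePart A) →
        finrank K R * homDim K D₀ ≤ homDim K (tensorSquare D)

/-- For a differential with a flag and with entries in the positive part, the homology has at least
the dimension of `R`. -/
def FlagInequality {K R : Type} [Field K] [CommRing R] [Algebra K R] {d : ℕ}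
    (A : Finset (Fin d) → Submodule K R) : Prop :=
  ∀ (n : ℕ) (D : Matrix (Fin n) (Fin n) R), D * D = 0 → 0 < n →
    (∀ i j, D i j ∈ positivePart A) → HasFlag D → finrank K R ≤ homDim K D

theorem result :
    -- (1) truncated polynomial rings; `G` is any matrix of polynomials which represents the
    -- differential, and `G.map constantCoeff` is the differential of the reduction to `k`
    (∀ (k : Type) [Field k] [CharP k 2] (d n : ℕ)
      (G : Matrix (Fin n) (Fin n) (MvPolynomial (Fin d) k)), reduce G * reduce G = 0 →
        2 ^ d * homDim k (G.map constantCoeff) ≤ homDim k (tensorSquare (reduce G)) ∧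
          (0 < n → G.map constantCoeff = 0 → HasFlag (reduce G) → 2 ^ d ≤ homDim k (reduce G))) ∧
    -- (2) all finite dimensional algebras with a squarefree grading
    (∀ (K R : Type) [Field K] [CharP K 2] [CommRing R] [Algebra K R] [FiniteDimensional K R]
      (d : ℕ) (A : Finset (Fin d) → Submodule K R), IsSquarefreeGrading A →
        SquareInequality A ∧ FlagInequality A) := by
  have main : ∀ (K R : Type) [Field K] [CharP K 2] [CommRing R] [Algebra K R]
      [FiniteDimensional K R] (d : ℕ) (A : Finset (Fin d) → Submodule K R),
      IsSquarefreeGrading A →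
      ∀ (n : ℕ) (D : Matrix (Fin n) (Fin n) R), D * D = 0 →
        (∀ D₀ : Matrix (Fin n) (Fin n) K,
          (∀ i j, D i j - algebraMap K R (D₀ i j) ∈ positivePart A) →
            finrank K R * homDim K D₀ ≤ homDim K (tensorSquare D)) ∧
          (0 < n → (∀ i j, D i j ∈ positivePart A) → HasFlag D → finrank K R ≤ homDim K D) := by
    intro K R _ _ _ _ _ d A hA n D hD
    have h2 : (2 : R) = 0 := by
      have : (2 : K) = 0 := CharTwo.two_eq_zero
      rw [← map_ofNat (algebraMap K R) 2, this, map_zero]
    constructor
    · intro D₀ hD₀
      have h := Pool.Agent.KS6_22.TS.main_graded h2 A hA D hD D₀ hD₀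
      obtain ⟨h3, h4⟩ := Pool.Agent.KS6_22.TS.kron_ranks (k := K) D
      have e : homDim K (tensorSquare D) =
          (finrank K (LinearMap.ker (Pool.Agent.KS6_22.TS.opT K D)) : ℤ) -
            finrank K (LinearMap.range (Pool.Agent.KS6_22.TS.opT K D)) := by
        rw [← h3, ← h4]
        rfl
      have e2 : homDim K D₀ = (finrank K (LinearMap.ker (Matrix.mulVecLin D₀)) : ℤ) -
          finrank K (LinearMap.range (Matrix.mulVecLin D₀)) := rfl
      rw [e, e2]
      zify at h
      linarith
    · rintro hn hD₀ ⟨deg, hdeg⟩
      have h := Pool.Agent.KS6_22.TS.main_flag h2 A hA hn D hD hD₀ deg hdeg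
      have e : homDim K D = (finrank K (LinearMap.ker ((Matrix.mulVecLin D).restrictScalars K)) : ℤ) -
          finrank K (LinearMap.range ((Matrix.mulVecLin D).restrictScalars K)) := rfl
      rw [e]
      zify at h
      linarith
  refine ⟨?_, fun K R _ _ _ _ _ d A hA => ⟨fun n D hD => (main K R d A hA n D hD).1,
    fun n D hD hn h0 hf => (main K R d A hA n D hD).2 hn h0 hf⟩⟩
  intro k _ _ d n G hG
  have := Pool.Agent.KS6_22.TS.finite_quot (k := k) (d := d)
  obtain ⟨h1, h2⟩ := main k _ d (Pool.Agent.KS6_22.TS.sqA k d)
    Pool.Agent.KS6_22.TS.sqA_grading n (G.map (Ideal.Quotient.mk _)) hG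
  have hr : (finrank k (MvPolynomial (Fin d) k ⧸ Pool.Agent.KS6_22.TS.sqI k d) : ℤ) = 2 ^ d := by
    rw [Pool.Agent.KS6_22.TS.finrank_quot]
    norm_num
  rw [hr] at h1 h2
  constructor
  · refine h1 _ fun i j => ?_
    have e : (G.map (Ideal.Quotient.mk (Pool.Agent.KS6_22.TS.sqI k d))) i j -
        algebraMap k _ ((G.map constantCoeff) i j) =
        Ideal.Quotient.mk (Pool.Agent.KS6_22.TS.sqI k d) (G i j - C (constantCoeff (G i j))) := by
      rw [map_sub]
      rfl
    rw [e]
    exact Pool.Agent.KS6_22.TS.mem_pos _ (by simp)
  · intro hn h0 hf
    refine h2 hn (fun i j => ?_) hf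
    refine Pool.Agent.KS6_22.TS.mem_pos _ ?_
    exact congrFun (congrFun h0 i) j

end Pool.Agent.Results.MP_f8ecd9_al.DifferentialModules
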